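import Pool.Agent.Helper65.KG.Goals

/-!
# Project KG (MP_20ee5e_ag), packet KL: three tangents
-/

set_option autoImplicit false

namespace Pool.Agent.Helper81.KG.KL

open Pool.Agent.Helper70.KN Pool.Agent.Helper65.KG

/-- A line below the cubic is a line below `κ`. -/
theorem line {α β : ℝ} (hβ : 0 ≤ β) (hα : α ≤ 2)
    (h : ∀ σ : ℝ, 0 ≤ σ → σ ≤ 2 → 0 ≤ 2 - α + (β - 3 / 2) * σ + σ ^ 2 / 2 - σ ^ 3 / 16)
    (h4 : 1 / 4 ≤ β) (h5 : α - 1 ≤ (β - 1 / 4) * 2) : Line4 α β := by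
  obtain ⟨k0, k1, k2⟩ := pKP 4 (by norm_num)
  refine ⟨hβ, fun σ hσ => ?_⟩
  rcases hσ.eq_or_lt with h0 | h0
  · rw [← h0, k0]
    push_cast
    linarith
  rcases le_total σ 2 with h2 | h2
  · rw [k1 σ h0 h2, le_div_iff₀ h0]
    have h6 := mul_nonneg hσ (h σ hσ h2)
    have h7 : 1 - (1 - σ / 2) ^ 4 - (α - β * σ) * σ =
        σ * (2 - α + (β - 3 / 2) * σ + σ ^ 2 / 2 - σ ^ 3 / 16) := by ring
    linarith
  · rw [k2 σ h2, le_div_iff₀ h0]
    have h6 : α - β * σ ≤ 1 - σ / 4 := by nlinarith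
    have h7 := mul_le_mul_of_nonneg_right h6 hσ
    nlinarith [sq_nonneg (σ - 2)]

theorem t : S_KL := by
  refine ⟨line (by norm_num) (by norm_num) ?_ (by norm_num) (by norm_num),
    line (by norm_num) (by norm_num) ?_ (by norm_num) (by norm_num),
    line (by norm_num) (by norm_num) ?_ (by norm_num) (by norm_num)⟩
  · intro σ h0 h2
    nlinarith [sq_nonneg (σ - 0.8), mul_nonneg (sq_nonneg (σ - 0.8)) (sub_nonneg.2 h2)]
  · intro σ h0 h2
    nlinarith [sq_nonneg (σ - 0.96673), mul_nonneg (sq_nonneg (σ - 0.96673)) (sub_nonneg.2 h2)]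
  · intro σ h0 h2
    nlinarith [sq_nonneg (σ - 1.166741), mul_nonneg (sq_nonneg (σ - 1.166741)) (sub_nonneg.2 h2)]

end Pool.Agent.Helper81.KG.KL
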